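import Pool.Agent.W811.Nd.Abs

set_option autoImplicit false

open Set

namespace Pool.Agent.W91.Nd

open Pool.Agent.W811.Nd

theorem card_image_snd (s : Finset (ℕ × Nod)) (h : ∀ a ∈ s, ∀ b ∈ s, a.2 = b.2 → a = b) :
    cnt (s.image Prod.snd) = (s.filter (fun C => C.2.2.2 = true)).card := by
  classical
  unfold cnt
  rw [Finset.filter_image, Finset.card_image_of_injOn]
  intro a ha b hb hab
  have ha' := (Finset.mem_filter.1 (Finset.mem_coe.1 ha)).1
  have hb' := (Finset.mem_filter.1 (Finset.mem_coe.1 hb)).1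
  exact h a ha' b hb' hab

theorem card_image_snd' (s : Finset (ℕ × Nod)) (h : ∀ a ∈ s, ∀ b ∈ s, a.2 = b.2 → a = b) :
    (s.image Prod.snd).card = s.card := by
  classical
  apply Finset.card_image_of_injOn
  intro a ha b hb hab
  exact h a (Finset.mem_coe.1 ha) b (Finset.mem_coe.1 hb) hab

theorem tree : TTree := by
  classical
  intro S Nd hNd hK K0 hK0 hdisj hcov
  choose! F hF using hK
  -- the families of children
  let G : ℕ × Nod → Finset (ℕ × Nod) := fun C => F C.1 C.2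
  have hG : ∀ C : ℕ × Nod, Nd C.1 C.2 → Kids S Nd C.1 C.2 (G C) := fun C h => hF C.1 C.2 h
  let Q : ℕ → Finset (ℕ × Nod) := fun n => Nat.rec K0 (fun _ s => s.biUnion G) n
  have hQ0 : Q 0 = K0 := rfl
  have hQs : ∀ n, Q (n + 1) = (Q n).biUnion G := fun n => rfl
  have h1 : ∀ n, ∀ C ∈ Q n, Nd C.1 C.2 := by
    intro n
    induction n with
    | zero => exact hK0
    | succ n ih =>
      intro C hC
      rw [hQs, Finset.mem_biUnion] at hC
      obtain ⟨A, hA, hCA⟩ := hC
      exact ((hG A (ih A hA)).nd C hCA).2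
  have hpos : ∀ n, ∀ C ∈ Q n, 0 < len C.2 := by
    intro n C hC
    have := (hNd C.1 C.2 (h1 n C hC)).1
    unfold len
    linarith
  have h2 : ∀ n, ∀ C ∈ Q n, ∀ C' ∈ Q n, C ≠ C' → Disjoint (seg C.2) (seg C'.2) := by
    intro n
    induction n with
    | zero => exact hdisj
    | succ n ih =>
      intro C hC C' hC' hne
      rw [hQs, Finset.mem_biUnion] at hC hC'
      obtain ⟨A, hA, hCA⟩ := hC
      obtain ⟨A', hA', hCA'⟩ := hC'
      by_cases hAA : A = A'
      · subst hAA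
        rw [Set.disjoint_left]
        intro x hx hx'
        have hg := (hG A (h1 n A hA)).gap C hCA C' hCA' hne x hx x hx'
        have hl := hpos n A hA
        rw [sub_self, abs_zero] at hg
        linarith
      · exact Set.disjoint_of_subset ((hG A (h1 n A hA)).sub C hCA)
          ((hG A' (h1 n A' hA')).sub C' hCA') (ih A hA A' hA' hAA)
  have h3 : ∀ n, ∀ x ∈ S, ∃ C ∈ Q n, x ∈ seg C.2 := by
    intro n
    induction n with
    | zero => exact hcov
    | succ n ih =>
      intro x hx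
      obtain ⟨A, hA, hxA⟩ := ih x hx
      obtain ⟨C, hC, hxC⟩ := (hG A (h1 n A hA)).cover x hx hxA
      refine ⟨C, ?_, hxC⟩
      rw [hQs, Finset.mem_biUnion]
      exact ⟨A, hA, hC⟩
  have hne : ∀ n, ∀ C ∈ Q n, ∃ x, x ∈ seg C.2 := by
    intro n C hC
    obtain ⟨x, _, hx⟩ := (hNd C.1 C.2 (h1 n C hC)).2
    exact ⟨x, hx⟩
  have hinj : ∀ n, ∀ a ∈ Q n, ∀ b ∈ Q n, a.2 = b.2 → a = b := by
    intro n C hC C' hC' h
    by_contra hcc
    have hd := h2 n C hC C' hC' hcc
    obtain ⟨x, hx⟩ := hne n C hC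
    have hx' : x ∈ seg C'.2 := by
      have h' : C.2 = C'.2 := h
      rw [← h']; exact hx
    exact (Set.disjoint_left.1 hd) hx hx'
  let P : ℕ → Finset Nod := fun n => (Q n).image Prod.snd
  have hP : ∀ n B, B ∈ P n ↔ ∃ A ∈ Q n, A.2 = B := by
    intro n B
    exact Finset.mem_image
  have hkids : ∀ n, ∀ A ∈ Q n, kids P n A.2 = (G A).image Prod.snd := by
    intro n A hA
    ext C
    unfold kids
    rw [Finset.mem_filter]
    constructor
    · rintro ⟨hC, hsub⟩
      obtain ⟨D, hD, rfl⟩ := (hP (n + 1) C).1 hC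
      rw [hQs, Finset.mem_biUnion] at hD
      obtain ⟨A', hA', hDA'⟩ := hD
      refine Finset.mem_image.2 ⟨D, ?_, rfl⟩
      by_contra hDA
      have hAA : A' ≠ A := by
        intro h
        rw [h] at hDA'
        exact hDA hDA'
      have hd := h2 n A' hA' A hA hAA
      have hDQ : D ∈ Q (n + 1) := by
        rw [hQs, Finset.mem_biUnion]
        exact ⟨A', hA', hDA'⟩
      obtain ⟨x, hx⟩ := hne (n + 1) D hDQ
      exact (Set.disjoint_left.1 hd) ((hG A' (h1 n A' hA')).sub D hDA' hx) (hsub hx)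
    · intro hC
      obtain ⟨D, hD, rfl⟩ := Finset.mem_image.1 hC
      refine ⟨(hP (n + 1) D.2).2 ⟨D, ?_, rfl⟩, (hG A (h1 n A hA)).sub D hD⟩
      rw [hQs, Finset.mem_biUnion]
      exact ⟨A, hA, hD⟩
  have hGsub : ∀ n, ∀ A ∈ Q n, G A ⊆ Q (n + 1) := by
    intro n A hA D hD
    rw [hQs, Finset.mem_biUnion]
    exact ⟨A, hA, hD⟩
  have hGinj : ∀ n, ∀ A ∈ Q n, ∀ a ∈ G A, ∀ b ∈ G A, a.2 = b.2 → a = b := by
    intro n A hA a ha b hb
    exact hinj (n + 1) a (hGsub n A hA ha) b (hGsub n A hA hb)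
  refine ⟨P, ?_, ?_⟩
  · constructor
    · intro n B hB
      obtain ⟨A, hA, rfl⟩ := (hP n B).1 hB
      exact (hNd A.1 A.2 (h1 n A hA)).1
    · intro n B hB B' hB' hBB
      obtain ⟨A, hA, rfl⟩ := (hP n B).1 hB
      obtain ⟨A', hA', rfl⟩ := (hP n B').1 hB'
      apply h2 n A hA A' hA'
      intro h
      rw [h] at hBB
      exact hBB rfl
    · intro n x hx
      obtain ⟨A, hA, hxA⟩ := h3 n x hx
      exact ⟨A.2, (hP n A.2).2 ⟨A, hA, rfl⟩, hxA⟩
    · intro n B hB
      obtain ⟨A, hA, rfl⟩ := (hP n B).1 hB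
      exact (hNd A.1 A.2 (h1 n A hA)).2
    · intro n C hC
      obtain ⟨D, hD, rfl⟩ := (hP (n + 1) C).1 hC
      rw [hQs, Finset.mem_biUnion] at hD
      obtain ⟨A, hA, hDA⟩ := hD
      exact ⟨A.2, (hP n A.2).2 ⟨A, hA, rfl⟩, (hG A (h1 n A hA)).sub D hDA⟩
    · intro n B hB
      obtain ⟨A, hA, rfl⟩ := (hP n B).1 hB
      rw [hkids n A hA, card_image_snd' _ (hGinj n A hA)]
      have hk := hG A (h1 n A hA)
      have e1 := hk.card1
      have e2 := hk.card2
      have e3 : (G A).card = ((G A).filter (fun C => C.2.2.2 = true)).card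
          + ((G A).filter (fun C => C.2.2.2 = false)).card := by
        rw [← Finset.card_filter_add_card_filter_not (s := G A) (fun C => C.2.2.2 = true)]
        congr 2
        ext C
        simp
      rw [e3, e1, e2]
      split_ifs <;> rfl
    · intro n B hB
      obtain ⟨A, hA, rfl⟩ := (hP n B).1 hB
      rw [hkids n A hA, card_image_snd _ (hGinj n A hA)]
      exact (hG A (h1 n A hA)).card1
    · intro n B hB C hC C' hC' hCC x hx y hy
      obtain ⟨A, hA, rfl⟩ := (hP n B).1 hB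
      rw [hkids n A hA] at hC hC'
      obtain ⟨D, hD, rfl⟩ := Finset.mem_image.1 hC
      obtain ⟨D', hD', rfl⟩ := Finset.mem_image.1 hC'
      apply (hG A (h1 n A hA)).gap D hD D' hD' _ x hx y hy
      intro h
      rw [h] at hCC
      exact hCC rfl
    · intro n B hB C hC
      obtain ⟨A, hA, rfl⟩ := (hP n B).1 hB
      rw [hkids n A hA] at hC
      obtain ⟨D, hD, rfl⟩ := Finset.mem_image.1 hC
      exact (hG A (h1 n A hA)).small D hD
  · exact card_image_snd K0 (hinj 0)

end Pool.Agent.W91.Nd
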